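import Pool.Agent.H283R3.Wid6

open MeasureTheory Set

namespace Pool.Agent.Results.MP_7fabd3_an.FactorTwoFails

open Pool.Agent.H283R3.WidDefs Pool.Agent.H283R3.Wid

/-- The inequality `[W_n²(μ)]² ≥ 2 S(μ)` fails for reflectionless measures on finite gap sets:
for `K = [-9/10, 1/10] ∪ [7/10, 9/10]`, the reflectionless measure `μ_γ` with `γ = 17/25` and
`n = 1` one has `[W_1²(μ_γ)]² < (19/10) S(μ_γ) < 2 S(μ_γ)`. -/
theorem result : ∃ (α β : Fin 2 → ℝ) (γ : Fin 1 → ℝ) (μK : Measure ℝ),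
    IsFiniteGap α β ∧ InGaps α β γ ∧ IsEquilibrium (bands α β) μK ∧
    IsProbabilityMeasure (reflM α β γ) ∧
    (widom (bands α β) (reflM α β γ) 1) ^ 2 < 19 / 10 * szego (reflM α β γ) μK ∧
    (widom (bands α β) (reflM α β γ) 1) ^ 2 < 2 * szego (reflM α β γ) μK ∧
    α = ![-9/10, 7/10] ∧ β = ![1/10, 9/10] ∧ γ = ![17/25] := by
  have h1 : (widom (bands al be) (reflM al be ![17/25]) 1) ^ 2 <
      19 / 10 * szego (reflM al be ![17/25]) muK := widom_sq_le.trans_lt final_ineq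
  have h2 : (0:ℝ) ≤ (widom (bands al be) (reflM al be ![17/25]) 1) ^ 2 := sq_nonneg _
  refine ⟨al, be, ![17/25], muK, isFiniteGap_ex, ?_, ?_, prob_refl, h1, ?_, rfl, rfl, rfl⟩
  · intro j
    fin_cases j
    constructor
    · show (1/10:ℝ) ≤ 17/25
      norm_num
    · show (17/25:ℝ) ≤ 7/10
      norm_num
  · rw [bands_eq]
    exact isEquilibrium_muK
  · linarith

end Pool.Agent.Results.MP_7fabd3_an.FactorTwoFails
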